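import Mathlib
import Pool.Agent.Lib.MP_a2947a_pr.Moments
import Pool.Agent.Lib.MP_a2947a_pr.Growth

open Finset MeasureTheory ProbabilityTheory Filter Topology
open scoped ENNReal
open Pool.Agent.Lib.MP_a2947a_pr

namespace Pool.Agent.Results.MP_a2947a_pr.GrowthConstants

/-- Independent choices `U n`, uniform on `{0, …, n}`, exist (so `result` is not vacuous). -/
theorem model_exists : ∃ μ : Measure ((n : ℕ) → Fin (n + 1)), IsProbabilityMeasure μ ∧
    (∀ n, Measurable (fun ω : (n : ℕ) → Fin (n + 1) => ω n)) ∧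
    iIndepFun (fun n (ω : (n : ℕ) → Fin (n + 1)) => ω n) μ ∧
    ∀ n (k : Fin (n + 1)), μ ((fun ω : (n : ℕ) → Fin (n + 1) => ω n) ⁻¹' {k}) =
      ((n : ℝ≥0∞) + 1)⁻¹ := by
  refine ⟨Measure.infinitePi (fun n => (PMF.uniformOfFintype (Fin (n + 1))).toMeasure),
    inferInstance, fun n => measurable_pi_apply n, ?_, ?_⟩
  · exact iIndepFun_infinitePi (X := fun _ ω => ω) (fun _ => measurable_id)
  · intro n k
    rw [← Measure.map_apply (measurable_pi_apply n) (measurableSet_singleton k),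
      Measure.infinitePi_map_eval, PMF.toMeasure_apply_singleton _ _ (measurableSet_singleton k)]
    simp [PMF.uniformOfFintype_apply]

/-- **Positive answer to Q1.**  Let `U n` be independent, uniform on `{0, …, n}`, and let
`X n = adder (fun k => U k ω) n` be the Ulam-Kac adder.  For every `m ≥ 1` the limit
`c = lim log E[X n ^ m] / √n` exists, is positive, satisfies
`2 √(2^m - 1) ≤ c ≤ 2 √(m ∑_{j ≤ m} C(m, j) / j)`, and `0.3 m ≤ log c ≤ 0.4 m + 1`. -/
theorem result {Ω : Type*} [MeasurableSpace Ω] (μ : Measure Ω) [IsProbabilityMeasure μ]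
    (U : (n : ℕ) → Ω → Fin (n + 1)) (hU : ∀ n, Measurable (U n)) (hind : iIndepFun U μ)
    (hunif : ∀ n (k : Fin (n + 1)), μ (U n ⁻¹' {k}) = ((n : ℝ≥0∞) + 1)⁻¹)
    (m : ℕ) (hm : 1 ≤ m) :
    ∃ c : ℝ, 0 < c ∧
      Tendsto (fun n : ℕ =>
        Real.log (∫ ω, (adder (fun k => U k ω) n : ℝ) ^ m ∂μ) / Real.sqrt n) atTop (𝓝 c) ∧
      2 * Real.sqrt (2 ^ m - 1) ≤ c ∧
      c ≤ 2 * Real.sqrt (m * ∑ j ∈ Finset.Icc 1 m, (m.choose j : ℝ) / j) ∧
      0.3 * m ≤ Real.log c ∧ Real.log c ≤ 0.4 * m + 1 := by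
  obtain ⟨lam, v, hv, hv0, he⟩ := exists_eigen m
  obtain ⟨hlam, hlow⟩ := eigen_lower hm hv hv0 he
  have hup := eigen_upper hm hv he hlam
  have hgg : gg m = ∑ j ∈ Finset.Icc 1 m, (m.choose j : ℝ) / j := by
    unfold gg
    rw [Finset.range_eq_Ico, Finset.sum_eq_sum_Ico_succ_bot (Nat.succ_pos m)]
    simp only [Nat.cast_zero, div_zero, mul_zero, zero_add]
    have : Finset.Ico 1 (m + 1) = Finset.Icc 1 m := by
      ext x
      simp only [Finset.mem_Ico, Finset.mem_Icc]
      omega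
    rw [this]
    exact Finset.sum_congr rfl (fun j _ => by ring)
  refine ⟨2 * lam, by linarith, ?_, ?_, ?_, log_lower hm hlam hlow, log_upper hm hlam hup⟩
  · have h := moment_growth hv hv0 he hlam (fun n P => M μ U n P)
      (fun n P => (M_pos hU n P).le) (fun n P _ => M_pos hU n P)
      (fun n P hP => M_succ hU hind hunif n hP) (fun n P hP => M_comp hU n hP)
    simpa only [M_empty] using h
  · refine mul_le_mul_of_nonneg_left ?_ (by norm_num)
    exact Real.sqrt_le_iff.2 ⟨hlam.le, hlow⟩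
  · refine mul_le_mul_of_nonneg_left ?_ (by norm_num)
    rw [← hgg]
    exact Real.le_sqrt_of_sq_le hup

end Pool.Agent.Results.MP_a2947a_pr.GrowthConstants
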